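import Mathlib
import Pool.Agent.Results.MP_9f54b8_an.GeomMeanArea
import Pool.Agent.Helper202.Geom

set_option autoImplicit false

/-!
# The weighted geometric mean of two functions of the class `Σ` with different zeros

`IsSigma` (the class `Σ`) and `IsCoeff α f g A` (`A` is the sequence of the coefficients at infinity
of `F = f^(1-α) g^α`) are defined in
`Pool/Agent/Results/MP_9f54b8_an/GeomMeanArea.lean`.

Idea of the proof: in the coordinate `w = 1/z` put `φ(w) = w f(1/w)` and `γ(w) = w g(1/w)`. If the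
expansion of `F` converges in the whole disc then its sum `H` satisfies
`H' φ γ = H ((1 - α) φ' γ + α γ' φ)` there. At a zero of `φ`, which is simple, where `γ` does not
vanish this gives that `1 - α` is the order of the zero of `H`, an integer.
-/

namespace Pool.Agent.Results.MP_9f54b8_an.DifferentZeros

open Complex Metric Set Filter Topology
open Pool.Agent.Results.MP_9f54b8_an.GeomMeanArea (IsSigma IsCoeff)

/-- A power series which converges on the punctured unit disc is differentiable there. -/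
theorem ps_diff (b : ℕ → ℂ) (h : ∀ w : ℂ, w ≠ 0 → ‖w‖ < 1 → Summable (fun n => b n * w ^ n)) :
    DifferentiableOn ℂ (fun w => ∑' n, b n * w ^ n) (ball 0 1) := by
  intro w hw
  rw [mem_ball_zero_iff] at hw
  obtain ⟨r, hr1, hr2⟩ := exists_between hw
  have hr0 : 0 < r := lt_of_le_of_lt (norm_nonneg _) hr1
  have hs := (h (r : ℂ) (by exact_mod_cast hr0.ne') (by
    rw [Complex.norm_real, Real.norm_of_nonneg hr0.le]; exact hr2)).norm
  have hd : DifferentiableOn ℂ (fun w => ∑' n, b n * w ^ n) (ball 0 r) := by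
    refine differentiableOn_tsum_of_summable_norm hs (fun i => by fun_prop) isOpen_ball ?_
    intro i v hv
    rw [mem_ball_zero_iff] at hv
    rw [norm_mul, norm_mul, norm_pow, norm_pow, Complex.norm_real, Real.norm_of_nonneg hr0.le]
    gcongr
  exact ((hd w (by rwa [mem_ball_zero_iff])).differentiableAt
    (isOpen_ball.mem_nhds (by rwa [mem_ball_zero_iff]))).differentiableWithinAt

/-- `w ↦ 1 + w ∑ b_n w^n` -/
noncomputable def ext (b : ℕ → ℂ) (w : ℂ) : ℂ := 1 + w * ∑' n, b n * w ^ n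

theorem ext_zero (b : ℕ → ℂ) : ext b 0 = 1 := by simp [ext]

theorem ext_diff {b : ℕ → ℂ} (h : ∀ w : ℂ, w ≠ 0 → ‖w‖ < 1 → Summable (fun n => b n * w ^ n)) :
    DifferentiableOn ℂ (ext b) (ball 0 1) :=
  (differentiableOn_const 1).add (differentiableOn_id.mul (ps_diff b h))

theorem ext_eq {b : ℕ → ℂ} {f : ℂ → ℂ} {w : ℂ} (hw : w ≠ 0)
    (h : HasSum (fun n => b n * w ^ n) (f w⁻¹ - w⁻¹)) : ext b w = w * f w⁻¹ := by
  rw [ext, h.tsum_eq]
  field_simp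
  ring

/-- The local analysis at a zero of `φ`. -/
theorem local_contra {α : ℝ} (h0 : 0 < α) (h1 : α < 1) {φ γ H : ℂ → ℂ}
    (hφ : DifferentiableOn ℂ φ (ball 0 1)) (hγ : DifferentiableOn ℂ γ (ball 0 1))
    (hH : DifferentiableOn ℂ H (ball 0 1)) (φ0 : φ 0 = 1) (γ0 : γ 0 = 1) (H0 : H 0 = 1)
    (hloc : ∀ᶠ w in 𝓝 (0 : ℂ), H w = φ w ^ ((1 - α : ℝ) : ℂ) * γ w ^ ((α : ℝ) : ℂ))
    {w₀ : ℂ} (hw₀ : w₀ ∈ ball (0 : ℂ) 1) (hz : φ w₀ = 0) (hd : deriv φ w₀ ≠ 0)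
    (hg : γ w₀ ≠ 0) : False := by
  have m0 : (0 : ℂ) ∈ ball (0 : ℂ) 1 := by simp
  have hφa : AnalyticOnNhd ℂ φ (ball 0 1) := hφ.analyticOnNhd isOpen_ball
  have hγa : AnalyticOnNhd ℂ γ (ball 0 1) := hγ.analyticOnNhd isOpen_ball
  have hHa : AnalyticOnNhd ℂ H (ball 0 1) := hH.analyticOnNhd isOpen_ball
  have hpre : IsPreconnected (ball (0 : ℂ) 1) := (convex_ball 0 1).isPreconnected
  -- the differential identity
  have key : ∀ w ∈ ball (0 : ℂ) 1, deriv H w * φ w * γ w =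
      H w * (((1 - α : ℝ) : ℂ) * deriv φ w * γ w + ((α : ℝ) : ℂ) * deriv γ w * φ w) := by
    have e1 : (fun w => deriv H w * φ w * γ w) =ᶠ[𝓝 0]
        (fun w => H w * (((1 - α : ℝ) : ℂ) * deriv φ w * γ w +
          ((α : ℝ) : ℂ) * deriv γ w * φ w)) := by
      have hs1 : ∀ᶠ w in 𝓝 (0 : ℂ), φ w ∈ slitPlane :=
        (hφa 0 m0).continuousAt.eventually_mem
          (isOpen_slitPlane.mem_nhds (by rw [φ0]; exact one_mem_slitPlane))
      have hs2 : ∀ᶠ w in 𝓝 (0 : ℂ), γ w ∈ slitPlane :=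
        (hγa 0 m0).continuousAt.eventually_mem
          (isOpen_slitPlane.mem_nhds (by rw [γ0]; exact one_mem_slitPlane))
      filter_upwards [hloc.eventually_nhds, hs1, hs2, isOpen_ball.mem_nhds m0] with w hw h1 h2 h3
      have d1 : HasDerivAt φ (deriv φ w) w := (hφa w h3).differentiableAt.hasDerivAt
      have d2 : HasDerivAt γ (deriv γ w) w := (hγa w h3).differentiableAt.hasDerivAt
      have n1 : φ w ≠ 0 := slitPlane_ne_zero h1
      have n2 : γ w ≠ 0 := slitPlane_ne_zero h2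
      have d3 := (d1.cpow_const (c := ((1 - α : ℝ) : ℂ)) h1).mul
        (d2.cpow_const (c := ((α : ℝ) : ℂ)) h2)
      have d4 : deriv H w = _ := (d3.congr_of_eventuallyEq hw).deriv
      have d5 : H w = _ := hw.self_of_nhds
      rw [d4, d5]
      rw [Complex.cpow_sub _ _ n1, Complex.cpow_sub _ _ n2, Complex.cpow_one, Complex.cpow_one]
      field_simp
    have a1 : AnalyticOnNhd ℂ (fun w => deriv H w * φ w * γ w) (ball 0 1) :=
      (hHa.deriv.mul hφa).mul hγa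
    have a2 : AnalyticOnNhd ℂ (fun w => H w * (((1 - α : ℝ) : ℂ) * deriv φ w * γ w +
          ((α : ℝ) : ℂ) * deriv γ w * φ w)) (ball 0 1) :=
      hHa.mul (((analyticOnNhd_const.mul hφa.deriv).mul hγa).add
        ((analyticOnNhd_const.mul hγa.deriv).mul hφa))
    exact a1.eqOn_of_preconnected_of_eventuallyEq a2 hpre m0 e1
  -- `H` is not locally zero at `w₀`
  have hne : ¬ ∀ᶠ z in 𝓝 w₀, H z = 0 := by
    intro h
    have := hHa.eqOn_of_preconnected_of_eventuallyEq (g := fun _ => (0 : ℂ)) analyticOnNhd_const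
      hpre hw₀ h m0
    simp [H0] at this
  obtain ⟨n, k, hk, hk0, hkeq⟩ :=
    (hHa w₀ hw₀).exists_eventuallyEq_pow_smul_nonzero_iff.mpr hne
  have hkd : ∀ᶠ z in 𝓝 w₀, AnalyticAt ℂ k z := hk.eventually_analyticAt
  -- the identity divided by `(w - w₀)^n`
  have e2 : ∀ᶠ w in 𝓝[≠] w₀, ((n : ℂ) * k w + (w - w₀) * deriv k w) * dslope φ w₀ w * γ w =
      k w * (((1 - α : ℝ) : ℂ) * deriv φ w * γ w + ((α : ℝ) : ℂ) * deriv γ w * φ w) := by
    filter_upwards [(hkeq.eventually_nhds).filter_mono nhdsWithin_le_nhds,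
      hkd.filter_mono nhdsWithin_le_nhds, (isOpen_ball.mem_nhds hw₀ |> mem_nhdsWithin_of_mem_nhds),
      self_mem_nhdsWithin] with w h1 h2 h3 h4
    have hw : w - w₀ ≠ 0 := sub_ne_zero.2 h4
    have d1 : HasDerivAt (fun z => (z - w₀) ^ n • k z)
        ((w - w₀) ^ n • deriv k w + ((n : ℂ) * (w - w₀) ^ (n - 1) * 1) • k w) w :=
      (((hasDerivAt_id w).sub_const w₀).pow n).smul h2.differentiableAt.hasDerivAt
    have d2 : deriv H w =
        ((n : ℂ) * (w - w₀) ^ (n - 1) * 1) • k w + (w - w₀) ^ n • deriv k w := by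
      rw [(d1.congr_of_eventuallyEq h1).deriv, add_comm]
    have d3 : H w = (w - w₀) ^ n • k w := h1.self_of_nhds
    have d4 : φ w = (w - w₀) * dslope φ w₀ w := by
      have := sub_smul_dslope φ w₀ w
      rw [hz, sub_zero, smul_eq_mul] at this
      exact this.symm
    have hK := key w h3
    rw [d2, d3] at hK
    have hp : (w - w₀) * (((n : ℂ) * (w - w₀) ^ (n - 1) * 1) • k w + (w - w₀) ^ n • deriv k w) =
        (w - w₀) ^ n * ((n : ℂ) * k w + (w - w₀) * deriv k w) := by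
      rcases Nat.eq_zero_or_pos n with hn | hn
      · subst hn; simp
      · obtain ⟨m, rfl⟩ : ∃ m, n = m + 1 := ⟨n - 1, by omega⟩
        simp only [Nat.add_sub_cancel, smul_eq_mul, pow_succ]
        ring
    have hpn : (w - w₀) ^ n ≠ 0 := pow_ne_zero _ hw
    apply mul_left_cancel₀ hpn

    calc (w - w₀) ^ n * (((n : ℂ) * k w + (w - w₀) * deriv k w) * dslope φ w₀ w * γ w)
        = ((w - w₀) ^ n * ((n : ℂ) * k w + (w - w₀) * deriv k w)) * dslope φ w₀ w * γ w := by ring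
      _ = (((n : ℂ) * (w - w₀) ^ (n - 1) * 1) • k w + (w - w₀) ^ n • deriv k w) *
            ((w - w₀) * dslope φ w₀ w) * γ w := by rw [← hp]; ring
      _ = _ := by
        rw [← d4, hK]
        simp only [smul_eq_mul]
        ring
  -- pass to the limit
  have c1 : ContinuousAt (fun w => ((n : ℂ) * k w + (w - w₀) * deriv k w) * dslope φ w₀ w * γ w)
      w₀ := by
    have s1 : ContinuousAt k w₀ := hk.continuousAt
    have s2 : ContinuousAt (deriv k) w₀ := hk.deriv.continuousAt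
    have s3 : ContinuousAt (dslope φ w₀) w₀ :=
      continuousAt_dslope_same.2 (hφa w₀ hw₀).differentiableAt
    have s4 : ContinuousAt γ w₀ := (hγa w₀ hw₀).continuousAt
    fun_prop
  have c2 : ContinuousAt (fun w => k w * (((1 - α : ℝ) : ℂ) * deriv φ w * γ w +
      ((α : ℝ) : ℂ) * deriv γ w * φ w)) w₀ := by
    have s1 : ContinuousAt k w₀ := hk.continuousAt
    have s2 : ContinuousAt (deriv φ) w₀ := (hφa w₀ hw₀).deriv.continuousAt
    have s3 : ContinuousAt (deriv γ) w₀ := (hγa w₀ hw₀).deriv.continuousAt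
    have s4 : ContinuousAt γ w₀ := (hγa w₀ hw₀).continuousAt
    have s5 : ContinuousAt φ w₀ := (hφa w₀ hw₀).continuousAt
    fun_prop
  have hlim := tendsto_nhds_unique_of_eventuallyEq
    (c1.tendsto.mono_left nhdsWithin_le_nhds) (c2.tendsto.mono_left nhdsWithin_le_nhds) e2
  simp only [sub_self, zero_mul, add_zero, dslope_same, hz, mul_zero] at hlim
  have hfin : ((n : ℂ) - ((1 - α : ℝ) : ℂ)) * (k w₀ * deriv φ w₀ * γ w₀) = 0 := by
    linear_combination hlim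
  have hprod : k w₀ * deriv φ w₀ * γ w₀ ≠ 0 := mul_ne_zero (mul_ne_zero hk0 hd) hg
  have hn : (n : ℂ) = ((1 - α : ℝ) : ℂ) := by
    rcases mul_eq_zero.1 hfin with h | h
    · exact sub_eq_zero.1 h
    · exact absurd h hprod
  have hn' : (n : ℝ) = 1 - α := by exact_mod_cast hn
  rcases Nat.eq_zero_or_pos n with h | h
  · rw [h] at hn'; push_cast at hn'; linarith
  · have : (1 : ℝ) ≤ n := by exact_mod_cast h
    linarith

theorem isOpen_ext : IsOpen {z : ℂ | 1 < ‖z‖} := isOpen_lt continuous_const continuous_norm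

theorem one_lt_inv {w : ℂ} (h0 : w ≠ 0) (h : ‖w‖ < 1) : 1 < ‖w⁻¹‖ := by
  rw [norm_inv]
  exact (one_lt_inv₀ (norm_pos_iff.2 h0)).2 h

/-- A function of the class `Σ` in the coordinate `w = 1/z`. -/
theorem sigma_ext {f : ℂ → ℂ} (hf : IsSigma f) : ∃ φ : ℂ → ℂ, DifferentiableOn ℂ φ (ball 0 1) ∧
    φ 0 = 1 ∧ (∀ w : ℂ, w ≠ 0 → ‖w‖ < 1 → φ w = w * f w⁻¹) ∧
    ∀ w ∈ ball (0 : ℂ) 1, φ w = 0 → deriv φ w ≠ 0 := by
  obtain ⟨hd, hinj, b, hb⟩ := hf
  have hs : ∀ w : ℂ, w ≠ 0 → ‖w‖ < 1 → HasSum (fun n => b n * w ^ n) (f w⁻¹ - w⁻¹) := by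
    intro w h0 h1
    have := hb w⁻¹ (one_lt_inv h0 h1)
    rwa [inv_inv] at this
  have he : ∀ w : ℂ, w ≠ 0 → ‖w‖ < 1 → ext b w = w * f w⁻¹ := fun w h0 h1 => ext_eq h0 (hs w h0 h1)
  refine ⟨ext b, ext_diff fun w h0 h1 => (hs w h0 h1).summable, ext_zero b, he, ?_⟩
  intro w hw hz
  have hw1 : ‖w‖ < 1 := by rwa [mem_ball_zero_iff] at hw
  have hw0 : w ≠ 0 := by
    rintro rfl
    rw [ext_zero] at hz
    exact one_ne_zero hz
  have hfz : f w⁻¹ = 0 := by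
    rw [he w hw0 hw1] at hz
    rcases mul_eq_zero.1 hz with h | h
    · exact absurd h hw0
    · exact h
  have hm : w⁻¹ ∈ {z : ℂ | 1 < ‖z‖} := one_lt_inv hw0 hw1
  have hfd : HasDerivAt f (deriv f w⁻¹) w⁻¹ :=
    ((hd _ hm).differentiableAt (isOpen_ext.mem_nhds hm)).hasDerivAt
  have hne : deriv f w⁻¹ ≠ 0 :=
    Pool.Agent.Helper202.Geom.deriv_ne_zero_of_injOn isOpen_ext hd hinj hm
  have h1 : HasDerivAt (fun v : ℂ => f v⁻¹) (deriv f w⁻¹ * (-(w ^ 2)⁻¹)) w :=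
    hfd.comp w (hasDerivAt_inv hw0)
  have h2 : HasDerivAt (fun v : ℂ => v * f v⁻¹) (1 * f w⁻¹ + w * (deriv f w⁻¹ * (-(w ^ 2)⁻¹))) w :=
    (hasDerivAt_id w).mul h1
  have h3 : ext b =ᶠ[𝓝 w] fun v : ℂ => v * f v⁻¹ := by
    filter_upwards [isOpen_ball.mem_nhds hw, isOpen_ne.mem_nhds hw0] with v hv hv0
    exact he v hv0 (by rwa [mem_ball_zero_iff] at hv)
  rw [(h2.congr_of_eventuallyEq h3).deriv, hfz, mul_zero, zero_add]
  refine mul_ne_zero hw0 (mul_ne_zero hne ?_)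
  exact neg_ne_zero.2 (inv_ne_zero (pow_ne_zero _ hw0))

/-- The coefficients give the mean in the coordinate `w = 1/z`. -/
theorem coeff_loc {α : ℝ} {f g φ γ : ℂ → ℂ} {A : ℕ → ℂ} (hA : IsCoeff α f g A)
    (hφ0 : φ 0 = 1) (hγ0 : γ 0 = 1)
    (hφ : ∀ w : ℂ, w ≠ 0 → ‖w‖ < 1 → φ w = w * f w⁻¹)
    (hγ : ∀ w : ℂ, w ≠ 0 → ‖w‖ < 1 → γ w = w * g w⁻¹) :
    ∀ᶠ w in 𝓝 (0 : ℂ), ext A w = φ w ^ ((1 - α : ℝ) : ℂ) * γ w ^ ((α : ℝ) : ℂ) := by
  obtain ⟨R, hR⟩ := hA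
  have hr : 0 < (|R| + 1)⁻¹ := by positivity
  filter_upwards [ball_mem_nhds (0 : ℂ) hr, ball_mem_nhds (0 : ℂ) one_pos] with w h1 h2
  rw [mem_ball_zero_iff] at h1 h2
  by_cases h0 : w = 0
  · subst h0
    rw [ext_zero, hφ0, hγ0, Complex.one_cpow, Complex.one_cpow, mul_one]
  have h3 : R < ‖w⁻¹‖ := by
    rw [norm_inv]
    have : |R| + 1 < ‖w‖⁻¹ := by
      rw [lt_inv_comm₀ (by positivity) (norm_pos_iff.2 h0)]
      exact h1
    linarith [le_abs_self R]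
  have h4 := hR w⁻¹ h3
  rw [inv_inv] at h4
  have e1 : f w⁻¹ / w⁻¹ = φ w := by rw [hφ w h0 h2, div_inv_eq_mul, mul_comm]
  have e2 : g w⁻¹ / w⁻¹ = γ w := by rw [hγ w h0 h2, div_inv_eq_mul, mul_comm]
  rw [e1, e2] at h4
  rw [ext, h4.tsum_eq]
  field_simp
  ring

/-- If the zeros of `f` and `g` differ, the expansion of the mean does not converge everywhere. -/
theorem not_summable {α : ℝ} (h0 : 0 < α) (h1 : α < 1) {f g : ℂ → ℂ} (hf : IsSigma f)
    (hg : IsSigma g) (hz : ∃ z : ℂ, 1 < ‖z‖ ∧ ¬ (f z = 0 ↔ g z = 0)) {A : ℕ → ℂ}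
    (hA : IsCoeff α f g A) : ∃ z : ℂ, 1 < ‖z‖ ∧ ¬ Summable (fun n => A n * z⁻¹ ^ n) := by
  by_contra hcon
  push Not at hcon
  obtain ⟨φ, dφ, φ0, φe, φd⟩ := sigma_ext hf
  obtain ⟨γ, dγ, γ0, γe, γd⟩ := sigma_ext hg
  have hS : ∀ w : ℂ, w ≠ 0 → ‖w‖ < 1 → Summable (fun n => A n * w ^ n) := by
    intro w hw0 hw1
    have := hcon w⁻¹ (one_lt_inv hw0 hw1)
    rwa [inv_inv] at this
  have dH := ext_diff hS
  have hloc := coeff_loc hA φ0 γ0 φe γe
  obtain ⟨z, hz1, hz2⟩ := hz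
  have hz0 : z ≠ 0 := by
    rintro rfl
    rw [norm_zero] at hz1
    linarith
  have hw0 : z⁻¹ ≠ 0 := inv_ne_zero hz0
  have hw1 : ‖z⁻¹‖ < 1 := by
    rw [norm_inv]
    exact inv_lt_one_of_one_lt₀ hz1
  have hwm : z⁻¹ ∈ ball (0 : ℂ) 1 := by rwa [mem_ball_zero_iff]
  have f1 : φ z⁻¹ = z⁻¹ * f z := by rw [φe _ hw0 hw1, inv_inv]
  have g1 : γ z⁻¹ = z⁻¹ * g z := by rw [γe _ hw0 hw1, inv_inv]
  by_cases hfz : f z = 0
  · have hgz : g z ≠ 0 := fun h => hz2 ⟨fun _ => h, fun _ => hfz⟩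
    have p1 : φ z⁻¹ = 0 := by rw [f1, hfz, mul_zero]
    exact local_contra h0 h1 dφ dγ dH φ0 γ0 (ext_zero A) hloc hwm p1 (φd _ hwm p1)
      (by rw [g1]; exact mul_ne_zero hw0 hgz)
  · have hgz : g z = 0 := by
      by_contra h
      exact hz2 ⟨fun h' => absurd h' hfz, fun h' => absurd h' h⟩
    have p1 : γ z⁻¹ = 0 := by rw [g1, hgz, mul_zero]
    refine local_contra (α := 1 - α) (by linarith) (by linarith) dγ dφ dH γ0 φ0 (ext_zero A) ?_
      hwm p1 (γd _ hwm p1) (by rw [f1]; exact mul_ne_zero hw0 hfz)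
    filter_upwards [hloc] with w hw
    rw [hw, mul_comm, sub_sub_cancel]

/-- A finite area sum implies convergence of the expansion outside the unit disc. -/
theorem summable_of_area {A : ℕ → ℂ}
    (h : ∑' n : ℕ, ENNReal.ofReal ((n : ℝ) * ‖A n‖ ^ 2) ≠ ⊤) {z : ℂ} (hz : 1 < ‖z‖) :
    Summable (fun n => A n * z⁻¹ ^ n) := by
  set T := (∑' n : ℕ, ENNReal.ofReal ((n : ℝ) * ‖A n‖ ^ 2)).toReal with hT
  have hT0 : 0 ≤ T := ENNReal.toReal_nonneg
  have hb : ∀ n : ℕ, ‖A n‖ ≤ ‖A 0‖ + (1 + T) := by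
    intro n
    rcases Nat.eq_zero_or_pos n with hn | hn
    · subst hn; linarith
    have h1 : ENNReal.ofReal ((n : ℝ) * ‖A n‖ ^ 2) ≤
        ∑' n : ℕ, ENNReal.ofReal ((n : ℝ) * ‖A n‖ ^ 2) := ENNReal.le_tsum n
    have h2 : (n : ℝ) * ‖A n‖ ^ 2 ≤ T := (ENNReal.ofReal_le_iff_le_toReal h).1 h1
    have h3 : (1 : ℝ) ≤ n := by exact_mod_cast hn
    have h4 : ‖A n‖ ^ 2 ≤ T := by nlinarith [sq_nonneg ‖A n‖]
    nlinarith [norm_nonneg (A 0), sq_nonneg (‖A n‖ - 1), norm_nonneg (A n)]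
  have hq : ‖z⁻¹‖ < 1 := by
    rw [norm_inv]
    exact inv_lt_one_of_one_lt₀ hz
  refine Summable.of_norm_bounded
    ((summable_geometric_of_lt_one (norm_nonneg _) hq).mul_left (‖A 0‖ + (1 + T))) ?_
  intro n
  rw [norm_mul, norm_pow]
  exact mul_le_mul_of_nonneg_right (hb n) (by positivity)

/-- The coefficients of the mean exist. -/
theorem exists_coeff (α : ℝ) {f g : ℂ → ℂ} (hf : IsSigma f) (hg : IsSigma g) :
    ∃ A : ℕ → ℂ, IsCoeff α f g A := by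
  obtain ⟨φ, dφ, φ0, φe, -⟩ := sigma_ext hf
  obtain ⟨γ, dγ, γ0, γe, -⟩ := sigma_ext hg
  have m0 : (0 : ℂ) ∈ ball (0 : ℂ) 1 := by simp
  have hφa : AnalyticOnNhd ℂ φ (ball 0 1) := dφ.analyticOnNhd isOpen_ball
  have hγa : AnalyticOnNhd ℂ γ (ball 0 1) := dγ.analyticOnNhd isOpen_ball
  have hs1 : ∀ᶠ w in 𝓝 (0 : ℂ), φ w ∈ slitPlane :=
    (hφa 0 m0).continuousAt.eventually_mem
      (isOpen_slitPlane.mem_nhds (by rw [φ0]; exact one_mem_slitPlane))
  have hs2 : ∀ᶠ w in 𝓝 (0 : ℂ), γ w ∈ slitPlane :=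
    (hγa 0 m0).continuousAt.eventually_mem
      (isOpen_slitPlane.mem_nhds (by rw [γ0]; exact one_mem_slitPlane))
  obtain ⟨r, hr, hball⟩ := Metric.eventually_nhds_iff_ball.1
    (hs1.and (hs2.and (isOpen_ball.mem_nhds m0)))
  set Φ : ℂ → ℂ := fun w => φ w ^ ((1 - α : ℝ) : ℂ) * γ w ^ ((α : ℝ) : ℂ) with hΦ
  have dΦ : DifferentiableOn ℂ Φ (ball 0 r) := by
    intro w hw
    obtain ⟨a1, a2, a3⟩ := hball w hw
    exact ((((hφa w a3).differentiableAt.hasDerivAt.cpow_const a1).mul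
      ((hγa w a3).differentiableAt.hasDerivAt.cpow_const a2)).differentiableAt).differentiableWithinAt
  have Φ0 : Φ 0 = 1 := by
    rw [hΦ]
    simp only
    rw [φ0, γ0, Complex.one_cpow, Complex.one_cpow, mul_one]
  refine ⟨fun n => ((n + 1).factorial : ℂ)⁻¹ * iteratedDeriv (n + 1) Φ 0, r⁻¹, ?_⟩
  intro z hz
  have hz0 : z ≠ 0 := by
    rintro rfl
    rw [norm_zero] at hz
    linarith [inv_pos.2 hr]
  have hw0 : z⁻¹ ≠ 0 := inv_ne_zero hz0
  have hwr : z⁻¹ ∈ ball (0 : ℂ) r := by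
    rw [mem_ball_zero_iff, norm_inv]
    exact inv_lt_of_inv_lt₀ hr hz
  have hw1 : ‖z⁻¹‖ < 1 := by
    have := (hball _ hwr).2.2
    rwa [dist_zero_right] at this
  have h := GeomMeanArea.expand dΦ Φ0 z⁻¹ hwr hw0
  have e1 : f z / z = φ z⁻¹ := by rw [φe _ hw0 hw1, inv_inv, div_eq_inv_mul]
  have e2 : g z / z = γ z⁻¹ := by rw [γe _ hw0 hw1, inv_inv, div_eq_inv_mul]
  rw [e1, e2]
  have e3 : (Φ z⁻¹ - 1) / z⁻¹ = z * φ z⁻¹ ^ ((1 - α : ℝ) : ℂ) * γ z⁻¹ ^ ((α : ℝ) : ℂ) - z := by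
    rw [hΦ]
    simp only
    rw [div_inv_eq_mul]
    ring
  rw [e3] at h
  exact h

/-- Translates. -/
theorem sigma_sub {g : ℂ → ℂ} (hg : IsSigma g) (c : ℂ) : IsSigma (fun z => g z - c) := by
  obtain ⟨hd, hinj, b, hb⟩ := hg
  refine ⟨hd.sub_const c, ?_, Function.update b 0 (b 0 - c), ?_⟩
  · intro x hx y hy h
    exact hinj hx hy (sub_left_inj.1 h)
  · intro z hz
    have h := (hb z hz).update 0 (b 0 - c)
    have e : (fun n => Function.update b 0 (b 0 - c) n * z⁻¹ ^ n) =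
        Function.update (fun n => b n * z⁻¹ ^ n) 0 (b 0 - c) := by
      funext n
      rcases Nat.eq_zero_or_pos n with hn | hn
      · subst hn; simp
      · rw [Function.update_of_ne (by omega), Function.update_of_ne (by omega)]
    rw [e]
    have e2 : b 0 - c - b 0 * z⁻¹ ^ 0 + (g z - z) = g z - c - z := by
      rw [pow_zero, mul_one]; ring
    rw [e2] at h
    exact h

theorem area_top {α : ℝ} (h0 : 0 < α) (h1 : α < 1) {f g : ℂ → ℂ} (hf : IsSigma f)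
    (hg : IsSigma g) (hz : ∃ z : ℂ, 1 < ‖z‖ ∧ ¬ (f z = 0 ↔ g z = 0)) {A : ℕ → ℂ}
    (hA : IsCoeff α f g A) : ∑' n : ℕ, ENNReal.ofReal ((n : ℝ) * ‖A n‖ ^ 2) = ⊤ := by
  by_contra h
  obtain ⟨z, hz1, hz2⟩ := not_summable h0 h1 hf hg hz hA
  exact hz2 (summable_of_area h hz1)

/-- Uniqueness of the coefficients of a power series. -/
theorem coeff_zero (n : ℕ) : ∀ b : ℕ → ℂ,
    (∀ w : ℂ, w ≠ 0 → ‖w‖ < 1 → HasSum (fun n => b n * w ^ n) 0) → b n = 0 := by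
  have base : ∀ b : ℕ → ℂ,
      (∀ w : ℂ, w ≠ 0 → ‖w‖ < 1 → HasSum (fun n => b n * w ^ n) 0) → b 0 = 0 := by
    intro b h
    have hd := ps_diff b (fun w h0 h1 => (h w h0 h1).summable)
    have hc : ContinuousAt (fun w => ∑' n, b n * w ^ n) 0 :=
      (hd.differentiableAt (ball_mem_nhds 0 one_pos)).continuousAt
    have h0 : ∑' n, b n * (0 : ℂ) ^ n = b 0 := by
      rw [tsum_eq_single 0]
      · simp
      · intro n hn
        simp [hn]
    have h1 : ∀ᶠ w in 𝓝[≠] (0 : ℂ), (fun w => ∑' n, b n * w ^ n) w = (fun _ => (0 : ℂ)) w := by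
      filter_upwards [self_mem_nhdsWithin,
        mem_nhdsWithin_of_mem_nhds (ball_mem_nhds (0 : ℂ) one_pos)] with w hw hw1
      exact (h w hw (by rwa [mem_ball_zero_iff] at hw1)).tsum_eq
    have := tendsto_nhds_unique_of_eventuallyEq (hc.tendsto.mono_left nhdsWithin_le_nhds)
      tendsto_const_nhds h1
    exact h0.symm.trans this
  induction n with
  | zero => exact base
  | succ n ih =>
    intro b h
    apply ih (fun n => b (n + 1))
    intro w h0 h1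
    have h2 := h w h0 h1
    rw [← hasSum_nat_add_iff' 1] at h2
    simp only [Finset.range_one, Finset.sum_singleton, pow_zero, mul_one, base b h, sub_zero] at h2
    have h3 := h2.mul_left w⁻¹
    rw [mul_zero] at h3
    have e : (fun n => b (n + 1) * w ^ n) = fun n => w⁻¹ * (b (n + 1) * w ^ (n + 1)) := by
      funext m
      rw [pow_succ]
      field_simp
    rw [e]
    exact h3

/-- Logarithms of nonvanishing functions on the disc. -/
theorem log_disc {u : ℂ → ℂ} (hu : DifferentiableOn ℂ u (ball 0 1)) (u0 : u 0 = 1)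
    (hne : ∀ w ∈ ball (0 : ℂ) 1, u w ≠ 0) :
    ∃ L : ℂ → ℂ, DifferentiableOn ℂ L (ball 0 1) ∧ L 0 = 0 ∧
      ∀ w ∈ ball (0 : ℂ) 1, u w = Complex.exp (L w) := by
  have h00 : (0 : ℂ) ∈ ball (0 : ℂ) 1 := by simp
  have hqd : DifferentiableOn ℂ (fun z => deriv u z / u z) (ball 0 1) :=
    (hu.deriv isOpen_ball).div hu hne
  obtain ⟨g, hg0, hg⟩ := hqd.isExactOn_ball.with_val_at 0 0
  refine ⟨g, fun z hz => (hg z hz).differentiableAt.differentiableWithinAt, hg0, ?_⟩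
  have hc : ∀ z ∈ ball (0 : ℂ) 1, HasDerivAt (fun z => u z * Complex.exp (-g z)) 0 z := by
    intro z hz
    have a1 : HasDerivAt u (deriv u z) z :=
      (hu.differentiableAt (isOpen_ball.mem_nhds hz)).hasDerivAt
    have a2 := a1.mul (hg z hz).neg.cexp
    convert! a2 using 1
    have := hne z hz
    simp only [Pi.neg_apply]
    field_simp
    ring
  have hconst : ∀ z ∈ ball (0 : ℂ) 1, (fun z => u z * Complex.exp (-g z)) z =
      (fun z => u z * Complex.exp (-g z)) 0 := by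
    intro z hz
    apply (convex_ball (0 : ℂ) 1).is_const_of_fderivWithin_eq_zero (𝕜 := ℂ)
      (f := fun z => u z * Complex.exp (-g z)) _ _ hz h00
    · intro w hw
      exact (hc w hw).differentiableAt.differentiableWithinAt
    · intro w hw
      rw [fderivWithin_of_isOpen isOpen_ball hw]
      have := (hc w hw).hasFDerivAt.fderiv
      rw [this]
      ext
      simp
  intro z hz
  have := hconst z hz
  simp only [u0, hg0, neg_zero, Complex.exp_zero, mul_one] at this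
  have h5 : Complex.exp (-g z) * Complex.exp (g z) = 1 := by rw [← Complex.exp_add]; simp
  calc u z = u z * (Complex.exp (-g z) * Complex.exp (g z)) := by rw [h5, mul_one]
    _ = (u z * Complex.exp (-g z)) * Complex.exp (g z) := by ring
    _ = Complex.exp (g z) := by rw [this, one_mul]

/-- Dividing out a simple zero. -/
theorem divide {φ : ℂ → ℂ} (hφ : DifferentiableOn ℂ φ (ball 0 1)) (φ0 : φ 0 = 1) {w₀ : ℂ}
    (hw₀ : w₀ ∈ ball (0 : ℂ) 1) (hz : φ w₀ = 0) (hd : deriv φ w₀ ≠ 0)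
    (hone : ∀ w ∈ ball (0 : ℂ) 1, φ w = 0 → w = w₀) :
    ∃ L : ℂ → ℂ, DifferentiableOn ℂ L (ball 0 1) ∧ L 0 = 0 ∧
      ∀ w ∈ ball (0 : ℂ) 1, φ w = (1 - w / w₀) * Complex.exp (L w) := by
  have h0 : w₀ ≠ 0 := by
    rintro rfl
    rw [φ0] at hz
    exact one_ne_zero hz
  have e : ∀ w : ℂ, φ w = (w - w₀) * dslope φ w₀ w := by
    intro w
    have := sub_smul_dslope φ w₀ w
    rw [hz, sub_zero, smul_eq_mul] at this
    exact this.symm
  have e' : ∀ w : ℂ, φ w = (1 - w / w₀) * (-w₀ * dslope φ w₀ w) := by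
    intro w
    rw [e w]
    field_simp
    ring
  have hu : DifferentiableOn ℂ (fun w => -w₀ * dslope φ w₀ w) (ball 0 1) :=
    ((Complex.differentiableOn_dslope (isOpen_ball.mem_nhds hw₀)).2 hφ).const_mul _
  obtain ⟨L, h1, h2, h3⟩ := log_disc hu (by
      have := e' 0
      rw [φ0, zero_div, sub_zero, one_mul] at this
      exact this.symm) (by
      intro w hw h
      have h4 : φ w = 0 := by rw [e' w, h, mul_zero]
      have h5 := hone w hw h4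
      rw [h5, dslope_same] at h
      rcases mul_eq_zero.1 h with h6 | h6
      · exact h0 (neg_eq_zero.1 h6)
      · exact hd h6)
  exact ⟨L, h1, h2, fun w hw => by rw [e' w, h3 w hw]⟩

/-- The mean of `p exp L` and `p exp M` near the origin. -/
theorem mean_loc (α : ℝ) {φ γ p L M : ℂ → ℂ} (hp : DifferentiableOn ℂ p (ball 0 1))
    (hL : DifferentiableOn ℂ L (ball 0 1)) (hM : DifferentiableOn ℂ M (ball 0 1))
    (p0 : p 0 = 1) (L0 : L 0 = 0) (M0 : M 0 = 0)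
    (hφ : ∀ w ∈ ball (0 : ℂ) 1, φ w = p w * Complex.exp (L w))
    (hγ : ∀ w ∈ ball (0 : ℂ) 1, γ w = p w * Complex.exp (M w)) :
    ∀ᶠ w in 𝓝 (0 : ℂ), φ w ^ ((1 - α : ℝ) : ℂ) * γ w ^ ((α : ℝ) : ℂ) =
      p w * Complex.exp (((1 - α : ℝ) : ℂ) * L w + ((α : ℝ) : ℂ) * M w) := by
  have hb : ball (0 : ℂ) 1 ∈ 𝓝 (0 : ℂ) := ball_mem_nhds 0 one_pos
  have cp : ContinuousAt p 0 := (hp.differentiableAt hb).continuousAt
  have cl : ContinuousAt (fun w => Complex.log (p w)) 0 :=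
    cp.clog (by rw [p0]; exact one_mem_slitPlane)
  have hpn : ∀ᶠ w in 𝓝 (0 : ℂ), p w ≠ 0 := cp.eventually_ne (by rw [p0]; exact one_ne_zero)
  have aux : ∀ {ψ N : ℂ → ℂ}, DifferentiableOn ℂ N (ball 0 1) → N 0 = 0 →
      (∀ w ∈ ball (0 : ℂ) 1, ψ w = p w * Complex.exp (N w)) → ∀ c : ℂ,
      ∀ᶠ w in 𝓝 (0 : ℂ), ψ w ^ c = Complex.exp ((Complex.log (p w) + N w) * c) := by
    intro ψ N hN N0 hψ c
    have cK : ContinuousAt (fun w => (Complex.log (p w) + N w).im) 0 :=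
      Complex.continuous_im.continuousAt.comp (cl.add (hN.differentiableAt hb).continuousAt)
    have hK : ∀ᶠ w in 𝓝 (0 : ℂ), (Complex.log (p w) + N w).im ∈ Ioo (-Real.pi) Real.pi := by
      refine cK.eventually_mem (Ioo_mem_nhds ?_ ?_)
      · simp [p0, N0, Real.pi_pos]
      · simp [p0, N0, Real.pi_pos]
    filter_upwards [hK, hpn, hb] with w h1 h2 h3
    have e : ψ w = Complex.exp (Complex.log (p w) + N w) := by
      rw [hψ w h3, Complex.exp_add, Complex.exp_log h2]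
    rw [Complex.cpow_def_of_ne_zero (by rw [e]; exact Complex.exp_ne_zero _), e,
      Complex.log_exp h1.1 h1.2.le]
  filter_upwards [aux hL L0 hφ ((1 - α : ℝ) : ℂ), aux hM M0 hγ ((α : ℝ) : ℂ), hpn] with w h1 h2 h3
  rw [h1, h2, ← Complex.exp_add]
  conv_rhs => rw [← Complex.exp_log h3, ← Complex.exp_add]
  congr 1
  push_cast
  ring

/-- If `f` and `g` have the same zeros, the expansion of the mean converges everywhere. -/
theorem summable_of_same (α : ℝ) {f g : ℂ → ℂ} (hf : IsSigma f) (hg : IsSigma g)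
    (hz : ∀ z : ℂ, 1 < ‖z‖ → (f z = 0 ↔ g z = 0)) {A : ℕ → ℂ} (hA : IsCoeff α f g A) (z : ℂ)
    (hz1 : 1 < ‖z‖) : Summable (fun n => A n * z⁻¹ ^ n) := by
  obtain ⟨φ, dφ, φ0, φe, φd⟩ := sigma_ext hf
  obtain ⟨γ, dγ, γ0, γe, γd⟩ := sigma_ext hg
  have hzero : ∀ w ∈ ball (0 : ℂ) 1, (φ w = 0 ↔ γ w = 0) := by
    intro w hw
    rw [mem_ball_zero_iff] at hw
    by_cases h0 : w = 0
    · subst h0; rw [φ0, γ0]
    · rw [φe w h0 hw, γe w h0 hw, mul_eq_zero, mul_eq_zero, hz _ (one_lt_inv h0 hw)]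
  have hone : ∀ {h : ℂ → ℂ} {ψ : ℂ → ℂ}, IsSigma h → ψ 0 = 1 →
      (∀ w : ℂ, w ≠ 0 → ‖w‖ < 1 → ψ w = w * h w⁻¹) →
      ∀ v ∈ ball (0 : ℂ) 1, ψ v = 0 → ∀ w ∈ ball (0 : ℂ) 1, ψ w = 0 → w = v := by
    intro h ψ hh ψ0 he v hv hv0 w hw hw0
    rw [mem_ball_zero_iff] at hv hw
    have n1 : v ≠ 0 := by rintro rfl; rw [ψ0] at hv0; exact one_ne_zero hv0
    have n2 : w ≠ 0 := by rintro rfl; rw [ψ0] at hw0; exact one_ne_zero hw0
    rw [he v n1 hv] at hv0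
    rw [he w n2 hw] at hw0
    have z1 := (mul_eq_zero.1 hv0).resolve_left n1
    have z2 := (mul_eq_zero.1 hw0).resolve_left n2
    have := hh.2.1 (one_lt_inv n2 hw) (one_lt_inv n1 hv) (z2.trans z1.symm)
    exact inv_injective this
  obtain ⟨p, L, M, dp, dL, dM, p0, L0, M0, e1, e2⟩ : ∃ p L M : ℂ → ℂ,
      DifferentiableOn ℂ p (ball 0 1) ∧ DifferentiableOn ℂ L (ball 0 1) ∧
      DifferentiableOn ℂ M (ball 0 1) ∧ p 0 = 1 ∧ L 0 = 0 ∧ M 0 = 0 ∧
      (∀ w ∈ ball (0 : ℂ) 1, φ w = p w * Complex.exp (L w)) ∧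
      ∀ w ∈ ball (0 : ℂ) 1, γ w = p w * Complex.exp (M w) := by
    by_cases hex : ∃ v ∈ ball (0 : ℂ) 1, φ v = 0
    · obtain ⟨v, hv, hv0⟩ := hex
      have hv1 := (hzero v hv).1 hv0
      obtain ⟨L, a1, a2, a3⟩ := divide dφ φ0 hv hv0 (φd v hv hv0) (hone hf φ0 φe v hv hv0)
      obtain ⟨M, b1, b2, b3⟩ := divide dγ γ0 hv hv1 (γd v hv hv1) (hone hg γ0 γe v hv hv1)
      exact ⟨fun w => 1 - w / v, L, M, by fun_prop, a1, b1, by simp, a2, b2, a3, b3⟩
    · have n1 : ∀ w ∈ ball (0 : ℂ) 1, φ w ≠ 0 := fun w hw h => hex ⟨w, hw, h⟩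
      have n2 : ∀ w ∈ ball (0 : ℂ) 1, γ w ≠ 0 := fun w hw h => hex ⟨w, hw, (hzero w hw).2 h⟩
      obtain ⟨L, a1, a2, a3⟩ := log_disc dφ φ0 n1
      obtain ⟨M, b1, b2, b3⟩ := log_disc dγ γ0 n2
      exact ⟨fun _ => 1, L, M, by fun_prop, a1, b1, rfl, a2, b2,
        fun w hw => by rw [one_mul, a3 w hw], fun w hw => by rw [one_mul, b3 w hw]⟩
  set H : ℂ → ℂ := fun w =>
    p w * Complex.exp (((1 - α : ℝ) : ℂ) * L w + ((α : ℝ) : ℂ) * M w) with hH
  have dH : DifferentiableOn ℂ H (ball 0 1) :=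
    dp.mul ((dL.const_mul _).add (dM.const_mul _)).cexp
  have H0 : H 0 = 1 := by simp [hH, p0, L0, M0]
  have hloc : ∀ᶠ w in 𝓝 (0 : ℂ), φ w ^ ((1 - α : ℝ) : ℂ) * γ w ^ ((α : ℝ) : ℂ) = H w :=
    mean_loc α dp dL dM p0 L0 M0 e1 e2
  obtain ⟨R, hR⟩ := hA
  obtain ⟨ε, hε, hball⟩ := Metric.eventually_nhds_iff_ball.1
    (hloc.and ((ball_mem_nhds (0 : ℂ) (show (0 : ℝ) < (|R| + 1)⁻¹ by positivity)) |>
      fun h => (show ∀ᶠ w in 𝓝 (0 : ℂ), w ∈ ball (0 : ℂ) (|R| + 1)⁻¹ from h)) |>.and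
      (show ∀ᶠ w in 𝓝 (0 : ℂ), w ∈ ball (0 : ℂ) 1 from ball_mem_nhds 0 one_pos))
  have hex := GeomMeanArea.expand dH H0
  set a : ℕ → ℂ := fun n => ((n + 1).factorial : ℂ)⁻¹ * iteratedDeriv (n + 1) H 0 with ha
  have hdiff : ∀ w ∈ ball (0 : ℂ) ε, w ≠ 0 → HasSum (fun n => (A n - a n) * w ^ n) 0 := by
    intro w hw h0
    obtain ⟨⟨q1, q2⟩, q3⟩ := hball w hw
    have q4 := hex w q3 h0
    rw [mem_ball_zero_iff] at q2 q3
    have q5 : R < ‖w⁻¹‖ := by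
      rw [norm_inv]
      have : |R| + 1 < ‖w‖⁻¹ := by
        rw [lt_inv_comm₀ (by positivity) (norm_pos_iff.2 h0)]
        exact q2
      linarith [le_abs_self R]
    have q6 := hR w⁻¹ q5
    rw [inv_inv] at q6
    have r1 : f w⁻¹ / w⁻¹ = φ w := by rw [φe w h0 q3, div_inv_eq_mul, mul_comm]
    have r2 : g w⁻¹ / w⁻¹ = γ w := by rw [γe w h0 q3, div_inv_eq_mul, mul_comm]
    rw [r1, r2, mul_assoc, q1] at q6
    have q7 := q6.sub q4
    have r3 : w⁻¹ * H w - w⁻¹ - (H w - 1) / w = 0 := by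
      field_simp
      ring
    rw [r3] at q7
    have e : (fun n => (A n - a n) * w ^ n) = fun n => A n * w ^ n - a n * w ^ n := by
      funext n
      ring
    rw [e]
    exact q7
  have hAa : ∀ n, A n = a n := by
    intro n
    have hε2 : (0 : ℝ) < ε / 2 := by positivity
    have hc := coeff_zero n (fun n => (A n - a n) * ((ε / 2 : ℝ) : ℂ) ^ n) (by
      intro w h0 h1
      have hn0 : ((ε / 2 : ℝ) : ℂ) ≠ 0 := by exact_mod_cast hε2.ne'
      have := hdiff (((ε / 2 : ℝ) : ℂ) * w) (by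
        rw [mem_ball_zero_iff, norm_mul, Complex.norm_real, Real.norm_of_nonneg hε2.le]
        nlinarith [norm_nonneg w]) (mul_ne_zero hn0 h0)
      convert this using 2 with m
      rw [mul_pow]
      ring)
    have hn0 : ((ε / 2 : ℝ) : ℂ) ^ n ≠ 0 := pow_ne_zero _ (by exact_mod_cast hε2.ne')
    exact sub_eq_zero.1 ((mul_eq_zero.1 hc).resolve_right hn0)
  have hz0 : z ≠ 0 := by
    rintro rfl
    rw [norm_zero] at hz1
    linarith
  have hw1 : z⁻¹ ∈ ball (0 : ℂ) 1 := by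
    rw [mem_ball_zero_iff, norm_inv]
    exact inv_lt_one_of_one_lt₀ hz1
  have := (hex z⁻¹ hw1 (inv_ne_zero hz0)).summable
  refine this.congr fun n => ?_
  rw [hAa n]

/-- Let `0 < α < 1`.

(1) For all `f, g ∈ Σ` the coefficients `A_n` of `F = f^(1-α) g^α` exist, and the expansion
`z + ∑ A_n z^(-n)` converges at all `z` with `|z| > 1` if and only if `f` and `g` have the same zeros
in `|z| > 1`.

(2) If `f` and `g` do not have the same zeros in `|z| > 1` then `∑ n |A_n|² = ∞`.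

(3) For every `g ∈ Σ` and every `ζ` with `|ζ| > 1` and `g(ζ) ≠ 0` the translate `f = g - g(ζ)` of `g`
is in `Σ` and `∑ n |A_n|² = ∞` for the pair `f, g`.

(4) There are `f, g ∈ Σ` without zeros in `|z| > 1` with `∑ n |A_n|² > 1`. -/
theorem result (α : ℝ) (h0 : 0 < α) (h1 : α < 1) :
    (∀ f g : ℂ → ℂ, IsSigma f → IsSigma g → (∃ A : ℕ → ℂ, IsCoeff α f g A) ∧
      ∀ A : ℕ → ℂ, IsCoeff α f g A →
        ((∀ z : ℂ, 1 < ‖z‖ → Summable (fun n => A n * z⁻¹ ^ n)) ↔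
          ∀ z : ℂ, 1 < ‖z‖ → (f z = 0 ↔ g z = 0)) ∧
        ((∃ z : ℂ, 1 < ‖z‖ ∧ ¬ (f z = 0 ↔ g z = 0)) →
          ∑' n : ℕ, ENNReal.ofReal ((n : ℝ) * ‖A n‖ ^ 2) = ⊤)) ∧
    (∀ g : ℂ → ℂ, IsSigma g → ∀ ζ : ℂ, 1 < ‖ζ‖ → g ζ ≠ 0 →
      IsSigma (fun z => g z - g ζ) ∧
      ∀ A : ℕ → ℂ, IsCoeff α (fun z => g z - g ζ) g A →
        ∑' n : ℕ, ENNReal.ofReal ((n : ℝ) * ‖A n‖ ^ 2) = ⊤) ∧
    (∃ f g : ℂ → ℂ, IsSigma f ∧ IsSigma g ∧ (∀ z : ℂ, 1 < ‖z‖ → f z ≠ 0 ∧ g z ≠ 0) ∧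
      ∃ A : ℕ → ℂ, IsCoeff α f g A ∧
        1 < ∑' n : ℕ, ENNReal.ofReal ((n : ℝ) * ‖A n‖ ^ 2)) := by
  refine ⟨?_, ?_, GeomMeanArea.result α h0 h1⟩
  · intro f g hf hg
    refine ⟨exists_coeff α hf hg, fun A hA => ⟨⟨fun hS z hz => ?_, fun hz z hz1 =>
      summable_of_same α hf hg hz hA z hz1⟩, fun hz => area_top h0 h1 hf hg hz hA⟩⟩
    by_contra hcon
    obtain ⟨v, hv1, hv2⟩ := not_summable h0 h1 hf hg ⟨z, hz, hcon⟩ hA
    exact hv2 (hS v hv1)
  · intro g hg ζ hζ hgζ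
    refine ⟨sigma_sub hg _, fun A hA => area_top h0 h1 (sigma_sub hg _) hg ⟨ζ, hζ, ?_⟩ hA⟩
    intro h
    exact hgζ (h.1 (sub_self _))

end Pool.Agent.Results.MP_9f54b8_an.DifferentZeros
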