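import Pool.Agent.Results.MP_9f54b8_an.GeomMeanArea

/-!
# The first coefficient of weighted geometric means in the class `Σ`

For every weight `α ∈ (0,1)` already the coefficient inequality `|A_1| ≤ 1`, which is much weaker
than the area inequality, fails for nonvanishing functions, by an explicit amount.
-/

set_option autoImplicit false
set_option linter.all false

namespace Pool.Agent.Results.MP_9f54b8_an.FirstCoefficient

open Complex Metric Set
open Pool.Agent.Results.MP_9f54b8_an.GeomMeanArea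

/-- The margin for the smaller weight `a` and the larger weight `b = 1 - a`. -/
theorem margin {a b d : ℝ} (ha : 0 < a) (hb : 0 < b) (hab : a + b = 1) (hd0 : 0 ≤ d) (hd1 : d ≤ 1)
    (hd : d ^ 2 / 2 - 2 * d = -(3 / 2) * (a / b)) :
    a / (4 * b) ≤ b * (d * (1 - d / 2)) ^ 2 + a * (1 * (1 - 1 / 2)) ^ 2 := by
  have h1 : a / b / 2 ≤ d * (1 - d / 2) := by nlinarith [mul_nonneg hd0 (sub_nonneg.2 hd1)]
  have h2 : 0 ≤ a / b / 2 := by positivity
  have h3 : (a / b / 2) ^ 2 ≤ (d * (1 - d / 2)) ^ 2 := pow_le_pow_left₀ h2 h1 2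
  have h4 : b * (a / b / 2) ^ 2 ≤ b * (d * (1 - d / 2)) ^ 2 := mul_le_mul_of_nonneg_left h3 hb.le
  have h5 : b * (a / b / 2) ^ 2 + a * (1 * (1 - 1 / 2)) ^ 2 = a / (4 * b) * (a + b) := by
    field_simp
    ring
  rw [hab, mul_one] at h5
  linarith

/-- **The first coefficient.** For every `α ∈ (0,1)` there are two nonvanishing functions `f`, `g` of
the class `Σ` such that the coefficient `A_1` of their weighted geometric mean
`F = f^(1-α) g^α = z + A_0 + A_1 / z + ⋯` satisfies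
`|A_1| ≥ 1 + min(α, 1-α) / (4 max(α, 1-α)) > 1`; in particular the area inequality
`∑ n |A_n|² ≤ 1` fails, with a sum which is at least the square of this number. -/
theorem result (α : ℝ) (h0 : 0 < α) (h1 : α < 1) :
    1 < 1 + min α (1 - α) / (4 * max α (1 - α)) ∧
    ∃ f g : ℂ → ℂ, IsSigma f ∧ IsSigma g ∧ (∀ z : ℂ, 1 < ‖z‖ → f z ≠ 0 ∧ g z ≠ 0) ∧
      ∃ A : ℕ → ℂ, IsCoeff α f g A ∧
        1 + min α (1 - α) / (4 * max α (1 - α)) ≤ ‖A 1‖ ∧
        ENNReal.ofReal ((1 + min α (1 - α) / (4 * max α (1 - α))) ^ 2) ≤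
          ∑' n : ℕ, ENNReal.ofReal ((n : ℝ) * ‖A n‖ ^ 2) := by
  have h1' : 0 < 1 - α := by linarith
  have hmin : 0 < min α (1 - α) := lt_min h0 h1'
  have hmax : 0 < max α (1 - α) := lt_max_of_lt_left h0
  have hpos : 0 < min α (1 - α) / (4 * max α (1 - α)) := by positivity
  refine ⟨by linarith, ?_⟩
  obtain ⟨d₁, d₂, h1a, h1b, h2a, h2b, hbal, hlow⟩ : ∃ d₁ d₂ : ℝ, 0 ≤ d₁ ∧ d₁ ≤ 1 ∧ 0 ≤ d₂ ∧
      d₂ ≤ 1 ∧ (1 - α) * (d₁ ^ 2 / 2 - 2 * d₁) = α * (d₂ ^ 2 / 2 - 2 * d₂) ∧
      min α (1 - α) / (4 * max α (1 - α)) ≤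
        (1 - α) * (d₁ * (1 - d₁ / 2)) ^ 2 + α * (d₂ * (1 - d₂ / 2)) ^ 2 := by
    rcases le_total α (1 / 2) with h | h
    · obtain ⟨d, hd0, hd1, hd⟩ := exists_param (t := α / (1 - α)) (by
        apply div_nonneg h0.le; linarith) (by
        rw [div_le_one (by linarith)]; linarith)
      refine ⟨d, 1, hd0, hd1, by norm_num, le_rfl, ?_, ?_⟩
      · rw [hd]
        have : (1 - α) * (α / (1 - α)) = α := by
          rw [mul_div_cancel₀]; linarith
        linear_combination (-(3 / 2)) * this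
      · rw [min_eq_left (by linarith), max_eq_right (by linarith)]
        exact margin h0 h1' (by ring) hd0 hd1 hd
    · obtain ⟨d, hd0, hd1, hd⟩ := exists_param (t := (1 - α) / α) (by
        apply div_nonneg _ h0.le; linarith) (by
        rw [div_le_one h0]; linarith)
      refine ⟨1, d, by norm_num, le_rfl, hd0, hd1, ?_, ?_⟩
      · rw [hd]
        have : α * ((1 - α) / α) = 1 - α := by
          rw [mul_div_cancel₀]; linarith
        linear_combination (3 / 2) * this
      · rw [min_eq_right (by linarith), max_eq_left (by linarith), add_comm]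
        exact margin h1' h0 (by ring) hd0 hd1 hd
  obtain ⟨A, hA, hA1⟩ := main_pair h1a h1b h2a h2b hbal
  have hn : 1 + min α (1 - α) / (4 * max α (1 - α)) ≤ ‖A 1‖ := by
    rw [hA1, Complex.norm_real, Real.norm_eq_abs, le_abs]
    right
    linarith
  refine ⟨q d₁, fun z => -q d₂ (-z), q_sigma h1a h1b, neg_sigma (q_sigma h2a h2b), ?_, A, hA,
    hn, ?_⟩
  · intro z hz
    refine ⟨q_ne_zero h1a h1b hz, ?_⟩
    exact neg_ne_zero.mpr (q_ne_zero h2a h2b (by rwa [norm_neg]))
  · refine le_trans ?_ (ENNReal.le_tsum 1)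
    apply ENNReal.ofReal_le_ofReal
    rw [Nat.cast_one, one_mul]
    exact pow_le_pow_left₀ (by linarith) hn 2

end Pool.Agent.Results.MP_9f54b8_an.FirstCoefficient
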